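import Pool.Agent.FS.BoundedRatio.Three
import Pool.Agent.FS.BoundedRatio.Cheb

open Pool.Agent.FS.BoundedRatio in
/-- With `p_k = Nat.nth Nat.Prime (k - 1)`: there is `K` such that for all `t ≥ 1` and `L` there are
infinitely many pairs `(c, d)` with `t c ≤ d ≤ K t c` such that `p_{n-c} + p_n - p_{n+d}` is
constant on `L` consecutive integers `n ≥ c + 1`. -/
theorem Pool.Agent.Results.MP_bee098_nt.BoundedRatio.result : ∃ K : ℕ, ∀ t : ℕ, 0 < t → ∀ L : ℕ,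
    {x : ℕ × ℕ | 0 < x.1 ∧ t * x.1 ≤ x.2 ∧ x.2 ≤ K * t * x.1 ∧
      ∃ n : ℕ, x.1 + 1 ≤ n ∧ ∃ v : ℤ, ∀ i < L,
        (Nat.nth Nat.Prime (n + i - x.1 - 1) : ℤ) + Nat.nth Nat.Prime (n + i - 1)
          - Nat.nth Nat.Prime (n + i + x.2 - 1) = v}.Infinite := by
  refine ⟨2 ^ 122, fun t ht L => Set.Infinite.of_image Prod.fst
    (Set.infinite_of_forall_exists_gt fun e => ?_)⟩
  obtain ⟨B, hB⟩ := cheb
  obtain ⟨s, s0, s1, s2⟩ := exists_scale t ht
  obtain ⟨X, i, i', i'', h0, h1, h2, h3, h4, h5, h6⟩ :=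
    runs_three L s (B + Nat.nth Nat.Prime e + 2 ^ 34 + s ^ 40) s0
  generalize s ^ 40 = S at *
  have a1 := (hB (32 * X) (by omega) (2 ^ 34) (by norm_num)).2 (by omega)
  have a2 := (hB (2 ^ 45 * X) (by omega) (2 ^ 34 * S) (by omega)).2 (by omega)
  have a3 := (hB (32 * X) (by omega) (2 ^ 80 * S) (by omega)).1
  have b0 : e < Nat.primeCounting (32 * X) := lt_pi (by omega)
  have b1 := lt_pi h1
  have b2 := pi_le h2
  have b3 := lt_pi h3
  have b4 := pi_le h4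
  have b5 := lt_pi h5
  generalize Nat.primeCounting (32 * X) = f at *
  generalize Nat.primeCounting (2 ^ 45 * X) = f' at *
  have c1 : f ≤ i' - i := by omega
  have c2 : f' ≤ S * f' := Nat.le_mul_of_pos_left _ (by omega)
  have c3 : t * (i' - i) ≤ S * f' := Nat.mul_le_mul s1 (by omega)
  have c4 : S * f ≤ 2 ^ 40 * t * (i' - i) := Nat.mul_le_mul s2 c1
  rw [mul_assoc] at a2 c4
  rw [show 4 * (2 ^ 80 * S) * f = 2 ^ 82 * (S * f) by ring] at a3
  refine ⟨i' - i, ⟨(i' - i, i'' - i'), ⟨?_, ?_, ?_, i' + 1, ?_,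
    (Nat.nth Nat.Prime i : ℤ) + Nat.nth Nat.Prime i' - Nat.nth Nat.Prime i'',
    fun j hj => ?_⟩, rfl⟩, by omega⟩
  · show 0 < i' - i
    omega
  · show t * (i' - i) ≤ i'' - i'
    omega
  · show i'' - i' ≤ 2 ^ 122 * t * (i' - i)
    rw [mul_assoc]
    omega
  · show i' - i + 1 ≤ i' + 1
    omega
  · have h7 := h6 j hj.le
    show (Nat.nth Nat.Prime (i' + 1 + j - (i' - i) - 1) : ℤ) + Nat.nth Nat.Prime (i' + 1 + j - 1)
      - Nat.nth Nat.Prime (i' + 1 + j + (i'' - i') - 1) = _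
    rw [show i' + 1 + j - (i' - i) - 1 = i + j by omega, show i' + 1 + j - 1 = i' + j by omega,
      show i' + 1 + j + (i'' - i') - 1 = i'' + j by omega]
    omega
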