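import Pool.Agent.FS.EveryD.Diff

/-- With `p_k = Nat.nth Nat.Prime (k - 1)`: for every positive `d` there are infinitely many `c`
such that `p_{n-c} + p_n - p_{n+d}` is constant on `d + 1` consecutive integers `n ≥ c + 1`. -/
theorem Pool.Agent.Results.MP_bee098_nt.EveryD.result (d : ℕ) (_hd : 0 < d) :
    {c : ℕ | 0 < c ∧ ∃ n : ℕ, c + 1 ≤ n ∧ ∃ v : ℤ, ∀ i < d + 1,
      (Nat.nth Nat.Prime (n + i - c - 1) : ℤ) + Nat.nth Nat.Prime (n + i - 1)
        - Nat.nth Nat.Prime (n + i + d - 1) = v}.Infinite := by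
  refine Set.infinite_of_forall_exists_gt fun c => ?_
  obtain ⟨i, i', h1, h2⟩ := Pool.Agent.FS.EveryD.runs_fixed_d d c
  refine ⟨i' - i, ⟨by omega, i' + 1, by omega,
    (Nat.nth Nat.Prime i : ℤ) + Nat.nth Nat.Prime i' - Nat.nth Nat.Prime (i' + d),
    fun j hj => ?_⟩, by omega⟩
  have h3 := h2 j (by omega)
  rw [show i' + 1 + j - (i' - i) - 1 = i + j by omega, show i' + 1 + j - 1 = i' + j by omega,
    show i' + 1 + j + d - 1 = i' + d + j by omega]
  omega
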